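import Pool.Agent.Y727.CS.Stm

/-!
# The explicit antisymmetrised word

In the sum `∑ s, sg s * x (s 0) * ...` the matrix `X g x` may be treated as anticommuting with
all `g (s k)`, `k ≠ 0`: the correction `2 x (s k)` cancels under `s ↦ s * swap 0 k`.
-/

set_option autoImplicit false

namespace Pool.Agent.Y442.CS

open Matrix Pool.Agent.Y727.CS

variable {ι : Type} [Fintype ι] [DecidableEq ι]

theorem anti_X {d : ℕ} {g : Fin d → Matrix ι ι ℂ} (hg : Cl g) (x : Fin d → ℝ) (a : Fin d) :
    X g x * g a + g a * X g x = (2 * (x a : ℂ)) • (1 : Matrix ι ι ℂ) := by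
  unfold X
  rw [Finset.sum_mul, Finset.mul_sum, ← Finset.sum_add_distrib, Finset.sum_eq_single a]
  · rw [Matrix.smul_mul, Matrix.mul_smul, hg.1 a, ← add_smul, two_mul]
  · intro b _ hb
    rw [Matrix.smul_mul, Matrix.mul_smul, hg.2 b a hb, smul_neg, neg_add_cancel]
  · intro h
    exact absurd (Finset.mem_univ a) h

theorem X_sq {d : ℕ} {g : Fin d → Matrix ι ι ℂ} (hg : Cl g) (x : Fin d → ℝ) :
    X g x * X g x = (nsq x : ℂ) • (1 : Matrix ι ι ℂ) := by
  have h1 : X g x * X g x + X g x * X g x = (2 * (nsq x : ℂ)) • (1 : Matrix ι ι ℂ) := by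
    conv_lhs =>
      congr
      · rw [X, Finset.mul_sum]
      · rw [X, Finset.sum_mul]
    rw [← Finset.sum_add_distrib]
    have h2 : ∀ j : Fin d, (X g x) * ((x j : ℂ) • g j) + ((x j : ℂ) • g j) * (X g x) =
        (2 * (x j : ℂ) ^ 2) • (1 : Matrix ι ι ℂ) := by
      intro j
      rw [Matrix.mul_smul, Matrix.smul_mul, ← smul_add, anti_X hg, smul_smul]
      congr 1
      ring
    have h3 : ∀ j : Fin d, (∑ j, (x j : ℂ) • g j) * ((x j : ℂ) • g j) +
        ((x j : ℂ) • g j) * (∑ j, (x j : ℂ) • g j) =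
        (2 * (x j : ℂ) ^ 2) • (1 : Matrix ι ι ℂ) := h2
    rw [Finset.sum_congr rfl fun j _ => h3 j, ← Finset.sum_smul, ← Finset.mul_sum]
    congr 2
    unfold nsq
    push_cast
    rfl
  have h4 : (2 : ℂ) • (X g x * X g x) = (2 : ℂ) • ((nsq x : ℂ) • (1 : Matrix ι ι ℂ)) := by
    rw [two_smul, h1, smul_smul]
  exact smul_right_injective _ (two_ne_zero) h4

/-- letters: `none` stands for `X`, `some k` for `g (s k)` -/
noncomputable def lv {n : ℕ} (Y : Matrix ι ι ℂ) (h : Fin n → Matrix ι ι ℂ) :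
    Option (Fin n) → Matrix ι ι ℂ
  | none => Y
  | some k => h k

/-- value of a word of letters -/
noncomputable def vl {n : ℕ} (Y : Matrix ι ι ℂ) (h : Fin n → Matrix ι ι ℂ)
    (l : List (Option (Fin n))) : Matrix ι ι ℂ := (l.map (lv Y h)).prod

theorem vl_append {n : ℕ} (Y : Matrix ι ι ℂ) (h : Fin n → Matrix ι ι ℂ)
    (l l' : List (Option (Fin n))) : vl Y h (l ++ l') = vl Y h l * vl Y h l' := by
  simp [vl]

theorem vl_none {n : ℕ} (Y : Matrix ι ι ℂ) (h : Fin n → Matrix ι ι ℂ)
    (l : List (Option (Fin n))) : vl Y h (none :: l) = Y * vl Y h l := by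
  simp [vl, lv]

theorem vl_some {n : ℕ} (Y : Matrix ι ι ℂ) (h : Fin n → Matrix ι ι ℂ) (k : Fin n)
    (l : List (Option (Fin n))) : vl Y h (some k :: l) = h k * vl Y h l := by
  simp [vl, lv]

/-- antisymmetrised word -/
noncomputable def Alt {n : ℕ} (g : Fin (n + 1) → Matrix ι ι ℂ) (x : Fin (n + 1) → ℝ)
    (l : List (Option (Fin (n + 1)))) : Matrix ι ι ℂ :=
  ∑ s : Equiv.Perm (Fin (n + 1)), (sg s * (x (s 0) : ℂ)) • vl (X g x) (fun k => g (s k)) l

theorem vl_swap {n : ℕ} (Y : Matrix ι ι ℂ) (g : Fin (n + 1) → Matrix ι ι ℂ)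
    (s : Equiv.Perm (Fin (n + 1))) (k : Fin (n + 1)) (l : List (Option (Fin (n + 1))))
    (h0 : some 0 ∉ l) (hk : some k ∉ l) :
    vl Y (fun j => g ((s * Equiv.swap 0 k) j)) l = vl Y (fun j => g (s j)) l := by
  unfold vl
  congr 1
  apply List.map_congr_left
  intro a ha
  cases a with
  | none => rfl
  | some j =>
    have hj0 : j ≠ 0 := by rintro rfl; exact h0 ha
    have hjk : j ≠ k := by rintro rfl; exact hk ha
    simp [lv, Equiv.swap_apply_of_ne_of_ne hj0 hjk]

theorem sg_mul_swap {n : ℕ} (s : Equiv.Perm (Fin (n + 1))) (k : Fin (n + 1)) (hk : k ≠ 0) :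
    sg (s * Equiv.swap 0 k) = -sg s := by
  unfold sg
  rw [Equiv.Perm.sign_mul, Equiv.Perm.sign_swap (Ne.symm hk)]
  simp

theorem Alt_swap {n : ℕ} {g : Fin (n + 1) → Matrix ι ι ℂ} (hg : Cl g) (x : Fin (n + 1) → ℝ)
    (k : Fin (n + 1)) (hk : k ≠ 0) (l l' : List (Option (Fin (n + 1))))
    (h0 : some 0 ∉ l) (h0' : some 0 ∉ l') (h1 : some k ∉ l) (h1' : some k ∉ l') :
    Alt g x (l ++ some k :: none :: l') = -Alt g x (l ++ none :: some k :: l') := by
  rw [eq_neg_iff_add_eq_zero]
  unfold Alt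
  rw [← Finset.sum_add_distrib]
  have h2 : ∀ s : Equiv.Perm (Fin (n + 1)),
      (sg s * (x (s 0) : ℂ)) • vl (X g x) (fun k => g (s k)) (l ++ some k :: none :: l') +
      (sg s * (x (s 0) : ℂ)) • vl (X g x) (fun k => g (s k)) (l ++ none :: some k :: l') =
      (2 * (sg s * ((x (s 0) : ℂ) * (x (s k) : ℂ)))) •
        (vl (X g x) (fun k => g (s k)) l * vl (X g x) (fun k => g (s k)) l') := by
    intro s
    simp only [vl_append, vl_none, vl_some]
    rw [← smul_add, ← mul_add,
      ← mul_assoc (g (s k)), ← mul_assoc (X g x), ← add_mul, add_comm (g (s k) * X g x),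
      anti_X hg, Matrix.smul_mul, one_mul, Matrix.mul_smul, smul_smul]
    congr 1
    ring
  rw [Finset.sum_congr rfl fun s _ => h2 s]
  set F : Equiv.Perm (Fin (n + 1)) → Matrix ι ι ℂ := fun s =>
    (2 * (sg s * ((x (s 0) : ℂ) * (x (s k) : ℂ)))) •
        (vl (X g x) (fun k => g (s k)) l * vl (X g x) (fun k => g (s k)) l') with hF
  have h3 : ∑ s, F (s * Equiv.swap 0 k) = ∑ s, F s :=
    Equiv.sum_comp (Equiv.mulRight (Equiv.swap 0 k)) F
  have h4 : ∀ s, F (s * Equiv.swap 0 k) = -F s := by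
    intro s
    simp only [hF]
    rw [vl_swap _ _ _ _ _ h0 h1, vl_swap _ _ _ _ _ h0' h1', sg_mul_swap s k hk, ← neg_smul]
    congr 1
    simp only [Equiv.Perm.mul_apply, Equiv.swap_apply_left, Equiv.swap_apply_right]
    ring
  rw [Finset.sum_congr rfl fun s _ => h4 s, Finset.sum_neg_distrib] at h3
  have h5 : (2 : ℂ) • ∑ s, F s = 0 := by
    rw [two_smul]
    nth_rewrite 1 [← h3]
    rw [neg_add_cancel]
  exact (smul_eq_zero.1 h5).resolve_left two_ne_zero

theorem Alt_move {n : ℕ} {g : Fin (n + 1) → Matrix ι ι ℂ} (hg : Cl g) (x : Fin (n + 1) → ℝ)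
    (k : Fin (n + 1)) (hk : k ≠ 0) (m : ℕ) (l l' : List (Option (Fin (n + 1))))
    (h0 : some 0 ∉ l) (h0' : some 0 ∉ l') (h1 : some k ∉ l) (h1' : some k ∉ l') :
    Alt g x (l ++ some k :: (List.replicate m none ++ l')) =
      (-1 : ℂ) ^ m • Alt g x (l ++ (List.replicate m none ++ some k :: l')) := by
  induction m generalizing l with
  | zero => simp
  | succ m ih =>
    rw [List.replicate_succ, List.cons_append, List.cons_append, Alt_swap hg x k hk l _ h0 _ h1 _]
    · have h2 := ih (l ++ [none]) (by simp [h0]) (by simp [h1])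
      simp only [List.append_assoc, List.cons_append, List.nil_append] at h2
      rw [h2, pow_succ]
      simp
    · simp [h0', List.mem_replicate]
    · simp [h1', List.mem_replicate]

/-- the word `X g_{k_1} X g_{k_2} ...` -/
def wd {n : ℕ} (L : List (Fin n)) : List (Option (Fin n)) := L.flatMap fun k => [none, some k]

theorem Alt_wd {n : ℕ} {g : Fin (n + 1) → Matrix ι ι ℂ} (hg : Cl g) (x : Fin (n + 1) → ℝ)
    (L : List (Fin (n + 1))) (hL : L.Nodup) (hL0 : (0 : Fin (n + 1)) ∉ L)
    (l : List (Option (Fin (n + 1)))) (h0 : some 0 ∉ l) (h1 : ∀ k ∈ L, some k ∉ l) :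
    Alt g x (l ++ wd L) = (-1 : ℂ) ^ (L.length * (L.length - 1) / 2) •
      Alt g x (l ++ (List.replicate L.length none ++ L.map some)) := by
  induction L generalizing l with
  | nil => simp [wd]
  | cons k L ih =>
    have hk0 : k ≠ 0 := fun h => hL0 (h ▸ List.mem_cons_self)
    have hkL : k ∉ L := (List.nodup_cons.1 hL).1
    have h2 := ih (List.nodup_cons.1 hL).2 (fun h => hL0 (List.mem_cons_of_mem _ h))
      (l ++ [none, some k]) (by simp [h0, Ne.symm hk0]) (by
        intro j hj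
        have : j ≠ k := by rintro rfl; exact hkL hj
        simp [h1 j (List.mem_cons_of_mem _ hj), this])
    have h3 := Alt_move hg x k hk0 L.length (l ++ [none]) (L.map some) (by simp [h0])
      (by simpa using fun h => hL0 (List.mem_cons_of_mem _ h)) (by simp [h1 k List.mem_cons_self])
      (by simpa using hkL)
    simp only [List.append_assoc, List.cons_append, List.nil_append] at h2 h3
    have h4 : wd (k :: L) = none :: some k :: wd L := by simp [wd]
    rw [h4, h2, h3, smul_smul, ← pow_add, List.length_cons, List.replicate_succ, List.cons_append,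
      List.map_cons]
    congr 2
    have h5 : (L.length + 1) * (L.length + 1 - 1) = L.length * (L.length - 1) + 2 * L.length := by
      rcases L.length with _ | m
      · simp
      · simp only [Nat.add_sub_cancel]; ring
    rw [h5, Nat.add_mul_div_left _ _ (by norm_num)]

theorem vl_wd {n : ℕ} (Y : Matrix ι ι ℂ) (h : Fin n → Matrix ι ι ℂ) (L : List (Fin n)) :
    vl Y h (wd L) = (L.map fun k => Y * h k).prod := by
  induction L with
  | nil => simp [vl, wd]
  | cons k L ih =>
    have h4 : wd (k :: L) = none :: some k :: wd L := by simp [wd]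
    rw [h4, vl_none, vl_some, ih, List.map_cons, List.prod_cons, mul_assoc]

omit [Fintype ι] [DecidableEq ι] in
theorem sum_perm_zero {n : ℕ} (f : Fin (n + 1) → Matrix ι ι ℂ) :
    ∑ s : Equiv.Perm (Fin (n + 1)), f (s 0) = (n.factorial : ℂ) • ∑ a, f a := by
  rw [← Equiv.sum_comp Equiv.Perm.decomposeFin.symm, Fintype.sum_prod_type]
  simp only [Equiv.Perm.decomposeFin_symm_apply_zero, Finset.sum_const, Finset.card_univ,
    Fintype.card_perm, Fintype.card_fin, Nat.cast_smul_eq_nsmul, Finset.smul_sum]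

theorem t_eval (hs : S_sgn) : S_eval := by
  intro ι _ _ t g hg x
  have h1 : ∑ s : Equiv.Perm (Fin (2 * t + 1 + 1)), (sg s * (x (s 0) : ℂ)) •
      word (X g x) (fun k : Fin (2 * t + 1) => g (s k.succ)) =
      Alt g x ([] ++ wd (List.ofFn (Fin.succ : Fin (2 * t + 1) → Fin (2 * t + 1 + 1)))) := by
    unfold Alt
    apply Finset.sum_congr rfl
    intro s _
    rw [List.nil_append, vl_wd, word, List.map_ofFn]
    rfl
  rw [h1, Alt_wd hg x _ (List.nodup_ofFn.2 (Fin.succ_injective _)) (by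
    simp [List.mem_ofFn, Fin.succ_ne_zero]) [] (by simp) (by simp), List.length_ofFn]
  have h2 : (-1 : ℂ) ^ ((2 * t + 1) * (2 * t + 1 - 1) / 2) = (-1 : ℂ) ^ t := by
    have h3 : (2 * t + 1) * (2 * t + 1 - 1) / 2 = 2 * (t * t) + t := by
      rw [Nat.add_sub_cancel]
      have : (2 * t + 1) * (2 * t) = 2 * (2 * (t * t) + t) := by ring
      rw [this, Nat.mul_div_cancel_left _ (by norm_num)]
    rw [h3, pow_add, pow_mul]
    simp
  rw [h2]
  have h3 : Alt g x ([] ++ (List.replicate (2 * t + 1) none ++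
      (List.ofFn (Fin.succ : Fin (2 * t + 1) → Fin (2 * t + 1 + 1))).map some)) =
      (((2 * t + 1).factorial : ℂ) * (nsq x : ℂ) ^ (t + 1)) • Gam g := by
    unfold Alt
    have h4 : ∀ s : Equiv.Perm (Fin (2 * t + 1 + 1)), (sg s * (x (s 0) : ℂ)) •
        vl (X g x) (fun k => g (s k)) ([] ++ (List.replicate (2 * t + 1) none ++
      (List.ofFn (Fin.succ : Fin (2 * t + 1) → Fin (2 * t + 1 + 1))).map some)) =
        X g x ^ (2 * t + 1) * ((x (s 0) : ℂ) • g (s 0)) * Gam g := by
      intro s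
      rw [List.nil_append, vl_append]
      have h5 : vl (X g x) (fun k => g (s k)) (List.replicate (2 * t + 1) none) =
          X g x ^ (2 * t + 1) := by
        simp [vl, lv]
      have h6 : vl (X g x) (fun k => g (s k))
          ((List.ofFn (Fin.succ : Fin (2 * t + 1) → Fin (2 * t + 1 + 1))).map some) =
          (List.ofFn fun k : Fin (2 * t + 1) => g (s k.succ)).prod := by
        unfold vl
        rw [List.map_map, List.map_ofFn]
        rfl
      have h7 := hs ι _ g hg s
      rw [List.ofFn_succ, List.prod_cons] at h7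
      have h8 : (List.ofFn fun k : Fin (2 * t + 1) => g (s k.succ)).prod =
          sg s • (g (s 0) * Gam g) := by
        have h9 : g (s 0) * (g (s 0) * (List.ofFn fun k : Fin (2 * t + 1) => g (s k.succ)).prod)
            = g (s 0) * (sg s • Gam g) := by rw [h7]
        rw [← mul_assoc, hg.1, one_mul, Matrix.mul_smul] at h9
        exact h9
      have h10 : sg s * sg s = 1 := by
        unfold sg
        rcases Int.units_eq_one_or (Equiv.Perm.sign s) with h | h <;> simp [h]
      rw [h5, h6, h8, Matrix.mul_smul, smul_smul, Matrix.mul_smul, Matrix.smul_mul, ← mul_assoc]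
      congr 1
      linear_combination (x (s 0) : ℂ) * h10
    rw [Finset.sum_congr rfl fun s _ => h4 s]
    rw [← Finset.sum_mul, ← Finset.mul_sum, sum_perm_zero (fun a => (x a : ℂ) • g a)]
    have h5 : ∑ a, (x a : ℂ) • g a = X g x := rfl
    rw [h5, Matrix.mul_smul, ← pow_succ, Matrix.smul_mul, mul_smul]
    congr 1
    have h6 : X g x ^ (2 * t + 1 + 1) = ((nsq x : ℂ) ^ (t + 1)) • (1 : Matrix ι ι ℂ) := by
      have h7 : X g x ^ (2 * t + 1 + 1) = (X g x ^ 2) ^ (t + 1) := by
        rw [← pow_mul]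
        rfl
      rw [h7, pow_two, X_sq hg, smul_pow, one_pow]
    rw [h6, Matrix.smul_mul, one_mul]
  rw [h3, smul_smul]
  congr 1
  ring

end Pool.Agent.Y442.CS
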